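import Mathlib

/-!
# Trail Trap (MP_b844b3_co): a first bound for the proportion of first-player wins

`Wins E a b`: the player to move has his token at `a`, his opponent's token is at `b`, the set of
unused edges is `E`, and the player to move can win.  `P1Win G`: Player 1 has a winning strategy
in Trail Trap on `G`.
-/

namespace TrailTrap

open Classical

/-- The position with unused edges `E`, the token of the player to move at `a` and the token of
his opponent at `b` is won by the player to move: he can move his token along an unused edge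
`{a, x}` to `x` so that the resulting position (opponent to move) is not won by the opponent. -/
def Wins {V : Type} (E : Finset (Sym2 V)) (a b : V) : Prop :=
  ∃ x, ∃ _h : s(a, x) ∈ E, ¬ Wins (E.erase s(a, x)) b x
termination_by E.card
decreasing_by exact Finset.card_erase_lt_of_mem _h

/-- The edges of a finite graph, as a finset. -/
noncomputable def edges {V : Type} [Finite V] (G : SimpleGraph V) : Finset (Sym2 V) :=
  (Set.toFinite G.edgeSet).toFinset

/-- Player 1 has a winning strategy in Trail Trap on `G`: he can place his token on a vertex `u`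
and move it along an edge `{u, v}` to `v` so that after every start `x → y` of Player 2 along
another edge `{x, y}` the position with the tokens at `v` and `y`, Player 1 to move, is won by
Player 1 (this holds vacuously if Player 2 has no legal start). -/
def P1Win {V : Type} [Finite V] (G : SimpleGraph V) : Prop :=
  ∃ u v, s(u, v) ∈ edges G ∧ ∀ x y, s(x, y) ∈ (edges G).erase s(u, v) →
    Wins (((edges G).erase s(u, v)).erase s(x, y)) v y

/-- `p n`: the fraction of the labelled graphs on `n` vertices which are P1-win. -/
noncomputable def p (n : ℕ) : ℝ :=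
  (Nat.card {G : SimpleGraph (Fin n) // P1Win G} : ℝ) / Nat.card (SimpleGraph (Fin n))

/-- Strategy stealing: if P1 wins `G` by a start along the edge `e`, then `G - e` is P2-win. -/
theorem steal {V : Type} [Finite V] (G : SimpleGraph V) (h : P1Win G) :
    ∃ e ∈ G.edgeSet, ¬ P1Win (G.deleteEdges {e}) := by
  obtain ⟨u, v, huv, hw⟩ := h
  refine ⟨s(u, v), by simpa [edges] using huv, ?_⟩
  rintro ⟨x, y, hxy, hw'⟩
  have hE : edges (G.deleteEdges {s(u, v)}) = (edges G).erase s(u, v) := by
    ext e
    simp [edges, SimpleGraph.edgeSet_deleteEdges, and_comm]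
  rw [hE] at hxy hw'
  have h1 := hw x y hxy
  rw [Wins] at h1
  obtain ⟨z, hz, hz'⟩ := h1
  exact hz' (hw' v z hz)

/-- A graph is recovered from `G - e` and the edge `e`. -/
theorem recover {V : Type} {G G' : SimpleGraph V} {e : Sym2 V} (he : e ∈ G.edgeSet)
    (he' : e ∈ G'.edgeSet) (h : G.deleteEdges {e} = G'.deleteEdges {e}) : G = G' := by
  have h1 := congrArg SimpleGraph.edgeSet h
  rw [SimpleGraph.edgeSet_deleteEdges, SimpleGraph.edgeSet_deleteEdges] at h1
  rw [← SimpleGraph.edgeSet_inj]
  ext f
  by_cases hf : f = e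
  · subst hf; simp [he, he']
  · have := Set.ext_iff.mp h1 f
    simpa [hf] using this

theorem card_top (n : ℕ) : (⊤ : SimpleGraph (Fin n)).edgeSet.ncard = n.choose 2 := by
  have := SimpleGraph.card_edgeFinset_top_eq_card_choose_two (V := Fin n)
  rw [Fintype.card_fin] at this
  rw [← this, ← SimpleGraph.coe_edgeFinset, Set.ncard_coe_finset]

/-- An edge as in `steal`. -/
noncomputable def thief {V : Type} [Finite V] (G : SimpleGraph V) (h : P1Win G) : Sym2 V :=
  (steal G h).choose

theorem thief_mem {V : Type} [Finite V] (G : SimpleGraph V) (h : P1Win G) :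
    thief G h ∈ G.edgeSet := (steal G h).choose_spec.1

theorem thief_spec {V : Type} [Finite V] (G : SimpleGraph V) (h : P1Win G) :
    ¬ P1Win (G.deleteEdges {thief G h}) := (steal G h).choose_spec.2

/-- For every `m` there are at most `N - m` times as many P1-win graphs with `m + 1` edges as
P2-win graphs with `m` edges, `N = n(n-1)/2`. -/
theorem count (n m : ℕ) :
    Nat.card {G : SimpleGraph (Fin n) // P1Win G ∧ G.edgeSet.ncard = m + 1} ≤
      (n.choose 2 - m) *
        Nat.card {G : SimpleGraph (Fin n) // ¬ P1Win G ∧ G.edgeSet.ncard = m} := by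
  rw [Nat.card_eq_fintype_card, Nat.card_eq_fintype_card, Fintype.card_subtype,
    Fintype.card_subtype]
  let f : SimpleGraph (Fin n) → SimpleGraph (Fin n) := fun G =>
    if h : P1Win G then G.deleteEdges {thief G h} else G
  have hf : ∀ G (h : P1Win G), f G = G.deleteEdges {thief G h} := fun G h => dif_pos h
  refine Finset.card_le_mul_card_image_of_maps_to (f := f) ?_ _ ?_
  · intro G hG
    rw [Finset.mem_filter] at hG ⊢
    obtain ⟨-, h1, h2⟩ := hG
    refine ⟨Finset.mem_univ _, ?_, ?_⟩
    · rw [hf G h1]; exact thief_spec G h1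
    · rw [hf G h1, SimpleGraph.edgeSet_deleteEdges, Set.ncard_sdiff_singleton_of_mem
        (thief_mem G h1), h2]
      rfl
  · intro H hH
    rw [Finset.mem_filter] at hH
    obtain ⟨-, -, h2⟩ := hH
    let t : Finset (Sym2 (Fin n)) := edges (⊤ : SimpleGraph (Fin n)) \ edges H
    have ht : t.card = n.choose 2 - m := by
      have e1 : (edges (⊤ : SimpleGraph (Fin n))).card = n.choose 2 := by
        rw [← card_top n, Set.ncard_eq_toFinset_card _ (Set.toFinite _)]; rfl
      have e2 : (edges H).card = m := by
        rw [← h2, Set.ncard_eq_toFinset_card _ (Set.toFinite _)]; rfl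
      rw [Finset.card_sdiff_of_subset, e1, e2]
      intro e he
      simp only [edges, Set.Finite.mem_toFinset] at he ⊢
      exact SimpleGraph.edgeSet_mono le_top he
    rw [← ht]
    rcases Finset.eq_empty_or_nonempty
      ({G ∈ ({G : SimpleGraph (Fin n) | P1Win G ∧ G.edgeSet.ncard = m + 1} : Finset _) |
        f G = H}) with h0 | ⟨G0, hG0⟩
    · rw [h0]; simp
    have hP0 : P1Win G0 := by
      rw [Finset.mem_filter, Finset.mem_filter] at hG0
      exact hG0.1.2.1
    let g : SimpleGraph (Fin n) → Sym2 (Fin n) := fun G =>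
      if h : P1Win G then thief G h else thief G0 hP0
    have hg : ∀ G (h : P1Win G), g G = thief G h := fun G h => dif_pos h
    refine Finset.card_le_card_of_injOn g ?_ ?_
    · intro G hG
      rw [Finset.mem_coe, Finset.mem_filter, Finset.mem_filter] at hG
      obtain ⟨⟨-, h1, -⟩, h3⟩ := hG
      rw [Finset.mem_coe, hg G h1, Finset.mem_sdiff]
      rw [hf G h1] at h3
      subst h3
      simp only [edges, Set.Finite.mem_toFinset, SimpleGraph.edgeSet_deleteEdges]
      exact ⟨SimpleGraph.edgeSet_mono le_top (thief_mem G h1), fun h => h.2 rfl⟩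
    · intro G hG G' hG' hGG
      rw [Finset.mem_coe, Finset.mem_filter, Finset.mem_filter] at hG hG'
      obtain ⟨⟨-, h1, -⟩, h3⟩ := hG
      obtain ⟨⟨-, h1', -⟩, h3'⟩ := hG'
      rw [hg G h1, hg G' h1'] at hGG
      rw [hf G h1] at h3
      rw [hf G' h1'] at h3'
      refine recover (thief_mem G h1) (hGG ▸ thief_mem G' h1') ?_
      rw [h3, hGG, h3']

theorem le_choose {n : ℕ} (G : SimpleGraph (Fin n)) : G.edgeSet.ncard ≤ n.choose 2 := by
  rw [← card_top n]
  exact Set.ncard_le_ncard (SimpleGraph.edgeSet_mono le_top) (Set.toFinite _)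

theorem no_edge {V : Type} [Finite V] (G : SimpleGraph V) (h : P1Win G) :
    G.edgeSet.ncard ≠ 0 := by
  intro h0
  rw [Set.ncard_eq_zero (Set.toFinite _)] at h0
  have := thief_mem G h
  rw [h0] at this
  exact this

/-- The number of P1-win graphs is at most `N` times the number of P2-win graphs. -/
theorem total (n : ℕ) :
    Nat.card {G : SimpleGraph (Fin n) // P1Win G} ≤
      n.choose 2 * Nat.card {G : SimpleGraph (Fin n) // ¬ P1Win G} := by
  rw [Nat.card_eq_fintype_card, Nat.card_eq_fintype_card, Fintype.card_subtype,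
    Fintype.card_subtype]
  have e1 : (Finset.univ.filter (fun G : SimpleGraph (Fin n) => P1Win G)).card =
      ∑ m ∈ Finset.range (n.choose 2),
        (Finset.univ.filter
          (fun G : SimpleGraph (Fin n) => P1Win G ∧ G.edgeSet.ncard = m + 1)).card := by
    rw [Finset.card_eq_sum_card_fiberwise (f := fun G => G.edgeSet.ncard - 1)
      (t := Finset.range (n.choose 2))]
    · refine Finset.sum_congr rfl fun m _ => congrArg Finset.card ?_
      ext G
      simp only [Finset.mem_filter, Finset.mem_univ, true_and]
      constructor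
      · rintro ⟨h1, h2⟩
        have := no_edge G h1
        exact ⟨h1, by omega⟩
      · rintro ⟨h1, h2⟩
        exact ⟨h1, by omega⟩
    · intro G hG
      rw [Finset.mem_coe, Finset.mem_filter] at hG
      have h1 := no_edge G hG.2
      have h2 := le_choose G
      rw [Finset.mem_coe, Finset.mem_range]
      show G.edgeSet.ncard - 1 < _
      omega
  have e2 : ∑ m ∈ Finset.range (n.choose 2),
        (Finset.univ.filter
          (fun G : SimpleGraph (Fin n) => ¬ P1Win G ∧ G.edgeSet.ncard = m)).card ≤
      (Finset.univ.filter (fun G : SimpleGraph (Fin n) => ¬ P1Win G)).card := by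
    rw [← Finset.card_biUnion]
    · refine Finset.card_le_card ?_
      intro G hG
      rw [Finset.mem_biUnion] at hG
      obtain ⟨m, -, hm⟩ := hG
      rw [Finset.mem_filter] at hm ⊢
      exact ⟨hm.1, hm.2.1⟩
    · intro a _ b _ hab
      rw [Function.onFun, Finset.disjoint_left]
      intro G h1 h2
      rw [Finset.mem_filter] at h1 h2
      exact hab (h1.2.2.symm.trans h2.2.2)
  rw [e1]
  refine le_trans (Finset.sum_le_sum (g := fun m => n.choose 2 * (Finset.univ.filter
          (fun G : SimpleGraph (Fin n) => ¬ P1Win G ∧ G.edgeSet.ncard = m)).card) ?_) ?_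
  · intro m _
    have := count n m
    rw [Nat.card_eq_fintype_card, Nat.card_eq_fintype_card, Fintype.card_subtype,
      Fintype.card_subtype] at this
    exact this.trans (Nat.mul_le_mul_right _ (Nat.sub_le _ _))
  · rw [← Finset.mul_sum]
    exact Nat.mul_le_mul_left _ e2

theorem main (n : ℕ) :
    (∀ m : ℕ, Nat.card {G : SimpleGraph (Fin n) // P1Win G ∧ G.edgeSet.ncard = m + 1} ≤
      (n.choose 2 - m) *
        Nat.card {G : SimpleGraph (Fin n) // ¬ P1Win G ∧ G.edgeSet.ncard = m}) ∧
    p n ≤ 1 - 1 / ((n.choose 2 : ℝ) + 1) := by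
  refine ⟨count n, ?_⟩
  have h1 := total n
  have h2 : Nat.card (SimpleGraph (Fin n)) =
      Nat.card {G : SimpleGraph (Fin n) // P1Win G} +
        Nat.card {G : SimpleGraph (Fin n) // ¬ P1Win G} := by
    rw [Nat.card_eq_fintype_card, Nat.card_eq_fintype_card, Nat.card_eq_fintype_card,
      Fintype.card_subtype_compl (fun G : SimpleGraph (Fin n) => P1Win G)]
    have := Fintype.card_subtype_le (fun G : SimpleGraph (Fin n) => P1Win G)
    omega
  have h3 : 0 < Nat.card (SimpleGraph (Fin n)) := Nat.card_pos
  unfold p
  generalize hW : Nat.card {G : SimpleGraph (Fin n) // P1Win G} = W at *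
  generalize hL : Nat.card {G : SimpleGraph (Fin n) // ¬ P1Win G} = L at *
  rw [h2] at h3 ⊢
  have h1' : (W : ℝ) ≤ (n.choose 2 : ℝ) * L := by exact_mod_cast h1
  have h3' : (0 : ℝ) < (W : ℝ) + L := by exact_mod_cast h3
  have h4 : (0 : ℝ) < (n.choose 2 : ℝ) + 1 := by positivity
  rw [le_sub_iff_add_le, Nat.cast_add, div_add_div _ _ h3'.ne' h4.ne', div_le_one (by positivity)]
  nlinarith

end TrailTrap

namespace Pool.Agent.Results.MP_b844b3_co.StealingBound

open TrailTrap

/-- **Theorem.** For every `n` and `m` there are at most `N - m` times as many P1-win graphs with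
`m + 1` edges as P2-win graphs with `m` edges on `n` labelled vertices, `N = n(n-1)/2`; hence at
most the fraction `1 - 1/(N+1)` of all graphs on `n` labelled vertices is P1-win. -/
theorem result (n : ℕ) :
    (∀ m : ℕ, Nat.card {G : SimpleGraph (Fin n) // P1Win G ∧ G.edgeSet.ncard = m + 1} ≤
      (n.choose 2 - m) *
        Nat.card {G : SimpleGraph (Fin n) // ¬ P1Win G ∧ G.edgeSet.ncard = m}) ∧
    p n ≤ 1 - 1 / ((n.choose 2 : ℝ) + 1) :=
  TrailTrap.main n

end Pool.Agent.Results.MP_b844b3_co.StealingBound
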